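import Pool.Agent.Helper3.TN.GoalsZ

/-!
# Project TN (MP_a41896_nt), packet TN-ELIM1: elimination of one variable
-/

set_option autoImplicit false

open MvPolynomial

namespace Pool.Agent.Helper99.TN.ELIM1

open WeierstrassCurve Height
open Pool.Agent.Helper29.BL Pool.Agent.Helper92.Ru Pool.Agent.Helper42.SG
open Pool.Agent.Helper68.VN Pool.Agent.Helper92.ZH

theorem mem_support_rename {k : Type} [Field k] {τ υ : Type} (e : τ → υ)
    (he : Function.Injective e) (p : MvPolynomial τ k) (u : τ →₀ ℕ) :
    Finsupp.mapDomain e u ∈ (rename e p).support ↔ u ∈ p.support := by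
  rw [mem_support_iff, mem_support_iff, coeff_rename_mapDomain _ he]

theorem PH_rename {k : Type} [Field k] [NumberField k] {τ υ : Type} (e : τ → υ)
    (he : Function.Injective e) (p : MvPolynomial τ k) : PH (rename e p) = PH p := by
  classical
  obtain ⟨E, hE⟩ : ∃ E : p.support → (rename e p).support, ∀ u, (E u).1 = Finsupp.mapDomain e u.1 :=
    ⟨fun u => ⟨Finsupp.mapDomain e u.1, (mem_support_rename e he p u.1).mpr u.2⟩, fun _ => rfl⟩
  have hb : Function.Bijective E := by
    constructor
    · intro u v huv
      apply Subtype.ext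
      apply Finsupp.mapDomain_injective he
      rw [← hE u, ← hE v, huv]
    · rintro ⟨v, hv⟩
      have hv' := hv
      rw [support_rename_of_injective he, Finset.mem_image] at hv'
      obtain ⟨u, hu, huv⟩ := hv'
      exact ⟨⟨u, hu⟩, Subtype.ext ((hE _).trans huv)⟩
  have h := Height.mulHeight_comp_equiv (Equiv.ofBijective E hb)
    (fun v : (rename e p).support => coeff v.1 (rename e p))
  unfold PH
  rw [← h]
  congr 1
  funext u
  rw [Function.comp_apply, Equiv.ofBijective_apply, hE, coeff_rename_mapDomain _ he]

theorem deg_out {k : Type} [Field k] {σ τ : Type} (e : σ → τ) (p : MvPolynomial σ k) (i : τ)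
    (hi : i ∉ Set.range e) : degreeOf i (rename e p) = 0 := by
  classical
  by_contra h
  have h1 : i ∈ (rename e p).vars := mem_vars_iff_degreeOf_ne_zero.2 h
  have h2 := vars_rename e p h1
  rw [Finset.mem_image] at h2
  obtain ⟨j, _, hj⟩ := h2
  exact hi ⟨j, hj⟩

theorem log_PH_zero {k : Type} [Field k] [NumberField k] {σ : Type} :
    Real.log (PH (0 : MvPolynomial σ k)) = 0 := by
  have : IsEmpty ((0 : MvPolynomial σ k).support) := by
    rw [support_zero]
    infer_instance
  have h : (fun e : (0 : MvPolynomial σ k).support => coeff e.1 (0 : MvPolynomial σ k)) = 0 := by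
    funext e
    simp
  unfold PH
  rw [h, Height.mulHeight_zero, Real.log_one]

/-- **ELIM1** -/
theorem t (hRESE : Pool.Agent.Helper92.ZH.RESE) : Pool.Agent.Helper3.TN.ELIM1 := by
  classical
  intro K _ _ σ V _ _ _ _ D0
  obtain ⟨C, hC, hr⟩ := hRESE K V D0
  refine ⟨C, hC, ?_⟩
  intro a em g F N0 N hem hgd hg1 hF0 hNN hN1 hFN
  have hdg : ∀ i, (rename em g).degreeOf (em i) = g.degreeOf i :=
    fun i => degreeOf_rename_of_injective hem i
  have hdo : ∀ v, v ∉ Set.range em → (rename em g).degreeOf v = 0 := fun v hv => deg_out _ _ _ hv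
  have hdle : ∀ v, (rename em g).degreeOf v ≤ D0 := by
    intro v
    by_cases hv : v ∈ Set.range em
    · obtain ⟨i, rfl⟩ := hv
      rw [hdg]
      exact hgd i
    · rw [hdo v hv]
      exact Nat.zero_le _
  obtain ⟨R, hR0, hRdeg, hRht, ⟨α, b, hab⟩, hRne⟩ := hr (em a) (rename em g) F N0 N hdle
    (by rw [hdg]; exact hg1) hF0 hNN hN1 hFN
  refine ⟨R, hR0, ?_, ?_, ?_, ⟨b, ?_⟩, ?_⟩
  · intro v hv
    refine (hRdeg v).trans ?_
    rw [hdo v hv, mul_zero, zero_add]
  · intro i
    refine (hRdeg (em i)).trans ?_
    rw [hdg]
    exact Nat.add_le_add_right (Nat.mul_le_mul_left _ (hgd i)) _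
  · by_cases hR : R = 0
    · rw [hR, log_PH_zero]
      have h1 : 0 ≤ Real.log (PH g) := Real.log_nonneg (Height.one_le_mulHeight _)
      have h2 : 0 ≤ Real.log (PH F) := Real.log_nonneg (Height.one_le_mulHeight _)
      positivity
    · have h := hRht hR
      rw [PH_rename em hem] at h
      exact h
  · intro A _ _ x hx
    have h1 : aeval x (rename em g) = 0 := by
      rw [aeval_rename]
      exact hx
    rw [hab, map_add, map_mul, map_mul, h1, mul_zero, zero_add]
  · intro Ω _ _ _ x hind hx
    refine hRne Ω x ?_ ?_
    · intro p hp hdeg hdeg0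
      have hinj : Function.Injective (fun i : {i : σ // i ≠ a} => em i.1) := by
        intro i j hij
        exact Subtype.ext (hem hij)
      obtain ⟨p', rfl⟩ := exists_rename_eq_of_vars_subset_range p
        (fun i : {i : σ // i ≠ a} => em i.1) hinj (by
          intro v hv
          rw [Finset.mem_coe, mem_vars_iff_degreeOf_ne_zero] at hv
          by_cases hvr : v ∈ Set.range em
          · obtain ⟨i, rfl⟩ := hvr
            by_cases hia : i = a
            · subst hia
              exact absurd hdeg0 hv
            · exact ⟨⟨i, hia⟩, rfl⟩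
          · exfalso
            apply hv
            have h1 := hdeg v
            rw [hdo v hvr] at h1
            exact Nat.le_zero.1 h1)
      have hp' : p' ≠ 0 := by
        rintro rfl
        exact hp (map_zero _)
      rw [aeval_rename]
      intro h0
      exact hp' (hind.eq_zero_of_aeval_eq_zero p' h0)
    · intro t ht
      apply hx t
      rw [aeval_rename] at ht
      have h2 : Function.update x (em a) t ∘ em = Function.update (fun i => x (em i)) a t :=
        Function.update_comp_eq_of_injective x hem a t
      rw [h2] at ht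
      exact ht

end Pool.Agent.Helper99.TN.ELIM1
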